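import Mathlib

/-!
# Contracted difference matrices: definitions

Finite abelian groups are written additively. Rows and columns are indexed by finite types.
-/

set_option autoImplicit false

namespace Pool.Agent.K7.H6.CDM

/-- `D` (rows indexed by `R`, columns indexed by `C`) is a `(G, m, lam)` difference matrix: it has `m`
rows and `lam * |G|` columns, and for every pair of distinct rows the entrywise differences take every
element of `G` exactly `lam` times. -/
def IsDifferenceMatrix {G R C : Type} [AddCommGroup G] (m lam : ℕ) (D : R → C → G) : Prop :=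
  Nat.card R = m ∧ Nat.card C = lam * Nat.card G ∧
    ∀ r s : R, r ≠ s → ∀ g : G, Nat.card {c : C // D r c - D s c = g} = lam

/-- The `2`-expansion of a `k × l` matrix `M`: rows are indexed by `ℤ_2^k`, columns by `ℤ_2^l`, and the
entry at `(r, c)` is `∑ r_i c_j M_ij`, with `r_i, c_j` read as the integers `0`, `1`. -/
def expansion {G : Type} [AddCommGroup G] {k l : ℕ} (M : Fin k → Fin l → G) :
    (Fin k → ZMod 2) → (Fin l → ZMod 2) → G :=
  fun r c => ∑ i, ∑ j, ((r i).val * (c j).val) • M i j

/-- The `k × n` matrix `M` over `G`, where `|G| = 2 ^ n`, is a `(G, k, 0)` contracted difference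
matrix: its `2`-expansion is a `(G, 2 ^ k, 1)` difference matrix. -/
def IsCDM {G : Type} [AddCommGroup G] {k n : ℕ} (M : Fin k → Fin n → G) : Prop :=
  Nat.card G = 2 ^ n ∧ IsDifferenceMatrix (2 ^ k) 1 (expansion M)

/-- The exponent (the largest order of an element) is at most the real number `x`. -/
def ExponentLE (G : Type) [AddCommGroup G] (x : ℝ) : Prop := ∀ g : G, (addOrderOf g : ℝ) ≤ x

/-- The rank (the minimal number of generators) is at least `r`. -/
def RankGE (G : Type) [AddCommGroup G] (r : ℕ) : Prop :=
  ∀ S : Finset G, AddSubgroup.closure (S : Set G) = ⊤ → r ≤ S.card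

/-- The positive answer to the question: every finite abelian group `G` of order `2 ^ n`, of exponent
at most `2 ^ (n / (r - 1))` and of rank at least `r ≥ 2` has a `(G, r, 0)` contracted difference
matrix. -/
def PositiveAnswer : Prop :=
  ∀ r : ℕ, 2 ≤ r → ∀ (G : Type) [AddCommGroup G] [Finite G] (n : ℕ), Nat.card G = 2 ^ n →
    ExponentLE G ((2 : ℝ) ^ ((n : ℝ) / ((r : ℝ) - 1))) → RankGE G r →
      ∃ M : Fin r → Fin n → G, IsCDM M

end Pool.Agent.K7.H6.CDM
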