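import Pool.Agent.K7.H6.CDM.Defs
import Pool.Agent.K7.H78.CDM.Facts

/-!
# From contracted difference matrices to nonvanishing signed sums, and the group `ℤ_4² × ℤ_2²`
-/

set_option autoImplicit false

namespace Pool.Agent.K7.H6.CDM

open Pool.Agent.K7.H78.CDM (G HS Sg T)

/-- positive part -/
def pos {n : ℕ} (α : Fin n → ℤ) : Fin n → ZMod 2 := fun i => if α i = 1 then 1 else 0
/-- negative part -/
def neg {n : ℕ} (α : Fin n → ℤ) : Fin n → ZMod 2 := fun i => if α i = -1 then 1 else 0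

lemma val_one' : ((1 : ZMod 2).val) = 1 := rfl
lemma val_zero' : ((0 : ZMod 2).val) = 0 := rfl

lemma val_sub {n : ℕ} {α : Fin n → ℤ} (h : Sg α) (i : Fin n) :
    (((pos α i).val : ℤ) - ((neg α i).val : ℤ)) = α i := by
  unfold pos neg
  rcases h i with h | h | h <;> simp [h, val_one', val_zero']

lemma pos_ne_neg {n : ℕ} {α : Fin n → ℤ} (h : Sg α) (h0 : α ≠ 0) : pos α ≠ neg α := by
  intro he
  apply h0
  funext i
  rw [← val_sub h i, he]
  simp

lemma expansion_eq {R C : ℕ} (M : Fin R → Fin C → G) (r : Fin R → ZMod 2) (c : Fin C → ZMod 2) :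
    expansion M r c = ∑ i, ∑ j, (((r i).val : ℤ) * ((c j).val : ℤ)) • M i j := by
  unfold expansion
  refine Finset.sum_congr rfl fun i _ => Finset.sum_congr rfl fun j _ => ?_
  rw [← Nat.cast_mul, natCast_zsmul]

lemma T_eq {R C : ℕ} (M : Fin R → Fin C → G) {α : Fin R → ℤ} {κ : Fin C → ℤ} (hα : Sg α)
    (hκ : Sg κ) :
    T M α κ = (expansion M (pos α) (pos κ) - expansion M (neg α) (pos κ)) -
      (expansion M (pos α) (neg κ) - expansion M (neg α) (neg κ)) := by
  simp only [expansion_eq, T, ← Finset.sum_sub_distrib]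
  refine Finset.sum_congr rfl fun i _ => Finset.sum_congr rfl fun j _ => ?_
  rw [← sub_smul, ← sub_smul, ← sub_smul, ← val_sub hα i, ← val_sub hκ j]
  congr 1
  ring

theorem hs_of_cdm {R C : ℕ} {M : Fin R → Fin C → G} (h : IsCDM M) : HS M := by
  intro α κ hα hκ hα0 hκ0 h0
  obtain ⟨_, _, _, hD⟩ := h
  have h1 := hD (pos α) (neg α) (pos_ne_neg hα hα0)
    (expansion M (pos α) (pos κ) - expansion M (neg α) (pos κ))
  rw [Nat.card_eq_one_iff_unique] at h1
  obtain ⟨hs, _⟩ := h1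
  have h2 : (⟨pos κ, rfl⟩ : {c : Fin C → ZMod 2 // expansion M (pos α) c - expansion M (neg α) c =
      expansion M (pos α) (pos κ) - expansion M (neg α) (pos κ)}) = ⟨neg κ, by
        rw [T_eq M hα hκ, sub_eq_zero] at h0
        exact h0.symm⟩ := Subsingleton.elim _ _
  exact pos_ne_neg hκ hκ0 (congrArg Subtype.val h2)

lemma card_G : Nat.card G = 2 ^ 6 := by
  simp [Nat.card_prod, Nat.card_zmod, G, Pool.Agent.K7.H78.CDM.Z4, Pool.Agent.K7.H78.CDM.Z2]

lemma exp_G : ExponentLE G ((2 : ℝ) ^ (((6 : ℕ) : ℝ) / (((4 : ℕ) : ℝ) - 1))) := by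
  intro g
  have h4 : (4 : ℕ) • g = 0 := by
    obtain ⟨a, b, c, d⟩ := g
    ext <;> simp <;> revert a b c d <;> decide
  have h : addOrderOf g ≤ 4 := addOrderOf_le_of_nsmul_eq_zero (by norm_num) h4
  have e : ((2 : ℝ) ^ (((6 : ℕ) : ℝ) / (((4 : ℕ) : ℝ) - 1))) = 4 := by
    have : (((6 : ℕ) : ℝ) / (((4 : ℕ) : ℝ) - 1)) = ((2 : ℕ) : ℝ) := by norm_num
    rw [this, Real.rpow_natCast]; norm_num
  rw [e]
  exact_mod_cast h

/-- reduction modulo two -/
def red : G →+ (Fin 4 → ZMod 2) where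
  toFun g := ![(ZMod.castHom (show 2 ∣ 4 by norm_num) (ZMod 2)) g.1,
    (ZMod.castHom (show 2 ∣ 4 by norm_num) (ZMod 2)) g.2.1, g.2.2.1, g.2.2.2]
  map_zero' := by
    ext i; fin_cases i <;> simp
  map_add' x y := by
    ext i; fin_cases i <;> simp

lemma red_surj : Function.Surjective red := by
  intro v
  have key : ∀ x : ZMod 2, ∃ y : ZMod 4, (ZMod.castHom (show 2 ∣ 4 by norm_num) (ZMod 2)) y = x := by
    decide
  obtain ⟨a, ha⟩ := key (v 0)
  obtain ⟨b, hb⟩ := key (v 1)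
  refine ⟨(a, b, v 2, v 3), ?_⟩
  ext i
  fin_cases i
  · simpa [red] using ha
  · simpa [red] using hb
  · simp [red]
  · simp [red]

lemma rank_G : RankGE G 4 := by
  classical
  intro S hS
  have h1 : AddSubgroup.closure ((S.image red : Finset (Fin 4 → ZMod 2)) : Set (Fin 4 → ZMod 2)) = ⊤ := by
    rw [Finset.coe_image, ← AddMonoidHom.map_closure, hS]
    exact AddSubgroup.map_top_of_surjective red red_surj
  have h2 : Submodule.span (ZMod 2) ((S.image red : Finset (Fin 4 → ZMod 2)) : Set (Fin 4 → ZMod 2)) = ⊤ := by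
    rw [eq_top_iff]
    intro x _
    have hx : x ∈ AddSubgroup.closure ((S.image red : Finset (Fin 4 → ZMod 2)) : Set (Fin 4 → ZMod 2)) := by
      rw [h1]; trivial
    have hle : AddSubgroup.closure ((S.image red : Finset (Fin 4 → ZMod 2)) : Set (Fin 4 → ZMod 2)) ≤
        (Submodule.span (ZMod 2) ((S.image red : Finset (Fin 4 → ZMod 2)) : Set (Fin 4 → ZMod 2))).toAddSubgroup := by
      rw [AddSubgroup.closure_le]
      exact Submodule.subset_span
    exact hle hx
  have h3 : Module.finrank (ZMod 2) (Fin 4 → ZMod 2) ≤ (S.image red).card := by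
    rw [← finrank_top (ZMod 2) (Fin 4 → ZMod 2), ← h2]
    exact finrank_span_finset_le_card _
  have h4 : Module.finrank (ZMod 2) (Fin 4 → ZMod 2) = 4 := by simp
  calc 4 ≤ (S.image red).card := by omega
    _ ≤ S.card := Finset.card_image_le

/-- no `(ℤ_4² × ℤ_2², 4, 0)` contracted difference matrix, from the nonexistence of matrices whose
signed sums are all nonzero -/
theorem final (h : ¬ ∃ M : Fin 4 → Fin 6 → G, HS M) :
    (¬ ∃ M : Fin 4 → Fin 6 → ZMod 4 × ZMod 4 × ZMod 2 × ZMod 2, IsCDM M) ∧ ¬ PositiveAnswer := by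
  have h' : ¬ ∃ M : Fin 4 → Fin 6 → G, IsCDM M := fun ⟨M, hM⟩ => h ⟨M, hs_of_cdm hM⟩
  refine ⟨h', fun hP => h' ?_⟩
  exact hP 4 (by norm_num) G 6 card_G exp_G rank_G

end Pool.Agent.K7.H6.CDM
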